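import Mathlib

namespace Pool.Agent.Results.MP_3f4d1a_nt.FewNonSimplePrimes

/-- The sum of the unitary divisors of `n` (those `d ∣ n` with `gcd (d, n / d) = 1`). -/
def unitarySum (n : ℕ) : ℕ := ∑ d ∈ n.divisors.filter (fun d => Nat.Coprime d (n / d)), d

/-- The set `𝒜` of the problem: `n ≥ 1` with `σ(n) = 2 σ*(n)`. -/
def InA (n : ℕ) : Prop := 0 < n ∧ ∑ d ∈ n.divisors, d = 2 * unitarySum n

theorem unitarySum_mul {m n : ℕ} (h : Nat.Coprime m n) :
    unitarySum (m * n) = unitarySum m * unitarySum n := by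
  unfold unitarySum
  rw [Finset.sum_mul_sum, ← Finset.sum_product']
  symm
  refine Finset.sum_nbij' (fun x : ℕ × ℕ => x.1 * x.2) (fun d => (Nat.gcd d m, Nat.gcd d n)) ?_ ?_ ?_ ?_ ?_
  · rintro ⟨a, b⟩ hx
    simp only [Finset.mem_product, Finset.mem_filter, Nat.mem_divisors] at hx ⊢
    obtain ⟨⟨⟨ha, hm⟩, hca⟩, ⟨⟨hb, hn⟩, hcb⟩⟩ := hx
    refine ⟨⟨Nat.mul_dvd_mul ha hb, Nat.mul_ne_zero hm hn⟩, ?_⟩
    rw [← Nat.div_mul_div_comm ha hb]
    have h1 : Nat.Coprime a (n / b) := (h.coprime_dvd_left ha).coprime_dvd_right (Nat.div_dvd_of_dvd hb)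
    have h2 : Nat.Coprime b (m / a) := (h.symm.coprime_dvd_left hb).coprime_dvd_right (Nat.div_dvd_of_dvd ha)
    exact Nat.Coprime.mul_left (Nat.Coprime.mul_right hca h1) (Nat.Coprime.mul_right h2 hcb)
  · intro d hd
    simp only [Finset.mem_product, Finset.mem_filter, Nat.mem_divisors] at hd ⊢
    obtain ⟨⟨hd, hmn⟩, hc⟩ := hd
    have hm : m ≠ 0 := fun h0 => hmn (by simp [h0])
    have hn : n ≠ 0 := fun h0 => hmn (by simp [h0])
    have hdd : d = Nat.gcd d m * Nat.gcd d n := by
      rw [← Nat.Coprime.gcd_mul d h]; exact (Nat.gcd_eq_left hd).symm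
    have hq : m * n / d = (m / Nat.gcd d m) * (n / Nat.gcd d n) := by
      conv_lhs => rw [hdd]
      rw [Nat.div_mul_div_comm (Nat.gcd_dvd_right d m) (Nat.gcd_dvd_right d n)]
    rw [hq] at hc
    refine ⟨⟨⟨Nat.gcd_dvd_right d m, hm⟩, ?_⟩, ⟨⟨Nat.gcd_dvd_right d n, hn⟩, ?_⟩⟩
    · exact (hc.coprime_dvd_left (Nat.gcd_dvd_left d m)).coprime_dvd_right (Dvd.intro _ rfl)
    · exact (hc.coprime_dvd_left (Nat.gcd_dvd_left d n)).coprime_dvd_right (Dvd.intro_left _ rfl)
  · rintro ⟨a, b⟩ hx
    simp only [Finset.mem_product, Finset.mem_filter, Nat.mem_divisors] at hx ⊢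
    obtain ⟨⟨⟨ha, hm⟩, hca⟩, ⟨⟨hb, hn⟩, hcb⟩⟩ := hx
    have h1 : Nat.gcd (a * b) m = a := by
      rw [Nat.Coprime.gcd_mul_right_cancel a (h.symm.coprime_dvd_left hb)]
      exact Nat.gcd_eq_left ha
    have h2 : Nat.gcd (a * b) n = b := by
      rw [Nat.Coprime.gcd_mul_left_cancel b (h.coprime_dvd_left ha)]
      exact Nat.gcd_eq_left hb
    simp [h1, h2]
  · intro d hd
    simp only [Finset.mem_filter, Nat.mem_divisors] at hd ⊢
    obtain ⟨⟨hd, hmn⟩, hc⟩ := hd
    rw [← Nat.Coprime.gcd_mul d h]; exact Nat.gcd_eq_left hd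
  · rintro ⟨a, b⟩ hx
    rfl

theorem unitarySum_one : unitarySum 1 = 1 := by
  decide

theorem unitarySum_prime_pow {p k : ℕ} (hp : p.Prime) (hk : k ≠ 0) :
    unitarySum (p ^ k) = 1 + p ^ k := by
  unfold unitarySum
  have hpk : 1 < p ^ k := Nat.one_lt_pow hk hp.one_lt
  have : (p ^ k).divisors.filter (fun d => Nat.Coprime d (p ^ k / d)) = {1, p ^ k} := by
    ext d
    simp only [Finset.mem_filter, Nat.mem_divisors, Finset.mem_insert, Finset.mem_singleton]
    constructor
    · rintro ⟨⟨hd, h0⟩, hc⟩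
      obtain ⟨j, hj, rfl⟩ := (Nat.dvd_prime_pow hp).1 hd
      rw [Nat.pow_div hj hp.pos] at hc
      by_cases hj0 : j = 0
      · left; simp [hj0]
      · by_cases hjk : k - j = 0
        · right; have : j = k := by omega
          rw [this]
        · exfalso
          have := Nat.Coprime.eq_one_of_dvd ((Nat.coprime_pow_left_iff (Nat.pos_of_ne_zero hj0) _ _).1 hc)
            (dvd_pow_self p hjk)
          exact hp.one_lt.ne' this
    · rintro (rfl | rfl)
      · exact ⟨⟨one_dvd _, by omega⟩, Nat.coprime_one_left _⟩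
      · exact ⟨⟨dvd_rfl, by omega⟩, by rw [Nat.div_self (by omega)]; exact Nat.coprime_one_right _⟩
  rw [this, Finset.sum_pair (by omega)]

theorem prod_eq {n : ℕ} (h : InA n) :
    ∏ p ∈ n.primeFactors, (∑ d ∈ (p ^ n.factorization p).divisors, d) =
      2 * ∏ p ∈ n.primeFactors, (1 + p ^ n.factorization p) := by
  obtain ⟨hn, h⟩ := h
  have hn0 : n ≠ 0 := by omega
  have h1 : ∑ d ∈ n.divisors, d = n.factorization.prod (fun p k => ∑ d ∈ (p ^ k).divisors, d) := by
    refine Nat.multiplicative_factorization (fun n => ∑ d ∈ n.divisors, d) ?_ ?_ hn0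
    · intro x y hxy
      exact hxy.sum_divisors_mul
    · simp
  have h2 : unitarySum n = n.factorization.prod (fun p k => unitarySum (p ^ k)) :=
    Nat.multiplicative_factorization unitarySum (fun x y hxy => unitarySum_mul hxy) unitarySum_one hn0
  rw [h1, h2, Finsupp.prod, Finsupp.prod, Nat.support_factorization] at h
  rw [h]
  congr 1
  refine Finset.prod_congr rfl ?_
  intro p hp
  have hp' := Nat.prime_of_mem_primeFactors hp
  have : n.factorization p ≠ 0 := by
    have := hp'.factorization_pos_of_dvd hn0 (Nat.dvd_of_mem_primeFactors hp)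
    omega
  exact unitarySum_prime_pow hp' this

theorem geom_mod_two {p : ℕ} (hp : Odd p) (m : ℕ) :
    (∑ i ∈ Finset.range m, p ^ i) % 2 = m % 2 := by
  induction m with
  | zero => simp
  | succ m ih =>
    rw [Finset.sum_range_succ, Nat.add_mod, ih, Nat.odd_iff.1 (hp.pow (n := m))]
    omega

theorem geom_two_mul (p m : ℕ) :
    ∑ i ∈ Finset.range (2 * m), p ^ i = (1 + p) * ∑ j ∈ Finset.range m, (p ^ 2) ^ j := by
  induction m with
  | zero => simp
  | succ m ih =>
    rw [show 2 * (m + 1) = 2 * m + 1 + 1 by ring, Finset.sum_range_succ, Finset.sum_range_succ, ih,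
      Finset.sum_range_succ]
    ring

theorem local_dvd {p k : ℕ} (hp : p.Prime) (h : ¬ (p ≠ 2 ∧ k % 4 = 3)) :
    ∃ c, Odd c ∧ (∑ d ∈ (p ^ k).divisors, d) ∣ c * (1 + p ^ k) := by
  rw [Nat.sum_divisors_prime_pow hp]
  by_cases h2 : p = 2
  · subst h2
    refine ⟨_, ?_, Dvd.intro _ rfl⟩
    rw [Finset.sum_range_succ']
    simp only [pow_zero]
    refine Even.add_one ?_
    exact Finset.even_sum _ (fun i _ => by rw [pow_succ]; exact even_two.mul_left _)
  · have hodd : Odd p := hp.odd_of_ne_two h2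
    have hk : k % 4 ≠ 3 := fun h3 => h ⟨h2, h3⟩
    rcases Nat.even_or_odd k with he | ho
    · refine ⟨_, ?_, Dvd.intro _ rfl⟩
      rw [Nat.odd_iff, geom_mod_two hodd]
      have := Nat.even_iff.1 he
      omega
    · have hk1 : k % 4 = 1 := by have := Nat.odd_iff.1 ho; omega
      obtain ⟨m, hm⟩ : ∃ m, k + 1 = 2 * m := ⟨(k + 1) / 2, by omega⟩
      refine ⟨∑ j ∈ Finset.range m, (p ^ 2) ^ j, ?_, ?_⟩
      · rw [Nat.odd_iff, geom_mod_two (hodd.pow (n := 2))]; omega
      · rw [hm, geom_two_mul, mul_comm]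
        refine Nat.mul_dvd_mul dvd_rfl ?_
        have := Odd.nat_add_dvd_pow_add_pow 1 p ho
        simpa using this

theorem exists_three_mod_four {n : ℕ} (h : InA n) :
    ∃ p, p.Prime ∧ p ≠ 2 ∧ p ∣ n ∧ n.factorization p % 4 = 3 := by
  by_contra hcon
  push Not at hcon
  have hloc : ∀ p ∈ n.primeFactors, ∃ c, Odd c ∧
      (∑ d ∈ (p ^ n.factorization p).divisors, d) ∣ c * (1 + p ^ n.factorization p) := by
    intro p hp
    have hp' := Nat.prime_of_mem_primeFactors hp
    exact local_dvd hp' (fun hh => hcon p hp' hh.1 (Nat.dvd_of_mem_primeFactors hp) hh.2)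
  choose! c hc hd using hloc
  have h1 := Finset.prod_dvd_prod_of_dvd _ _ hd
  rw [prod_eq h, Finset.prod_mul_distrib] at h1
  have hpos : 0 < ∏ p ∈ n.primeFactors, (1 + p ^ n.factorization p) :=
    Finset.prod_pos (fun p _ => by positivity)
  have h2 : 2 ∣ ∏ p ∈ n.primeFactors, c p := Nat.dvd_of_mul_dvd_mul_right hpos h1
  obtain ⟨p, hp, hp2⟩ := (Nat.prime_two.prime.dvd_finsetProd_iff _).1 h2
  have := Nat.odd_iff.1 (hc p hp)
  omega

theorem geom_int (p k : ℕ) :
    ((∑ i ∈ Finset.range (k + 1), p ^ i : ℕ) : ℤ) * ((p : ℤ) - 1) = (p : ℤ) * (p : ℤ) ^ k - 1 := by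
  push_cast
  rw [geom_sum_mul]
  ring

theorem one_case {p k : ℕ} (hp : p.Prime) 
    (h : ∑ i ∈ Finset.range (k + 1), p ^ i = 2 * (1 + p ^ k)) : False := by
  have h1 := geom_int p k
  rw [h] at h1
  push_cast at h1
  have hp2 : (2 : ℤ) ≤ p := by exact_mod_cast hp.two_le
  have hX : (0 : ℤ) < (p : ℤ) ^ k := by positivity
  nlinarith [mul_nonneg hX.le (sub_nonneg.2 hp2)]

theorem two_case {p q a b : ℕ} (hp : p.Prime) (hq : q.Prime) (hpq : p < q) (_ha : 2 ≤ a) (hb : 2 ≤ b)
    (h : (∑ i ∈ Finset.range (a + 1), p ^ i) * (∑ i ∈ Finset.range (b + 1), q ^ i) =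
      2 * ((1 + p ^ a) * (1 + q ^ b))) : p = 2 ∧ a = 2 ∧ q = 3 ∧ b = 3 := by
  have h1 := geom_int p a
  have h2 := geom_int q b
  have h3 : ((∑ i ∈ Finset.range (a + 1), p ^ i : ℕ) : ℤ) *
      ((∑ i ∈ Finset.range (b + 1), q ^ i : ℕ) : ℤ) = 2 * ((1 + (p : ℤ) ^ a) * (1 + (q : ℤ) ^ b)) := by
    exact_mod_cast h
  set S : ℤ := ((∑ i ∈ Finset.range (a + 1), p ^ i : ℕ) : ℤ) with hS
  set T : ℤ := ((∑ i ∈ Finset.range (b + 1), q ^ i : ℕ) : ℤ) with hT
  have key : ((p : ℤ) * (p : ℤ) ^ a - 1) * ((q : ℤ) * (q : ℤ) ^ b - 1) =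
      2 * ((1 + (p : ℤ) ^ a) * (1 + (q : ℤ) ^ b)) * (((p : ℤ) - 1) * ((q : ℤ) - 1)) := by
    rw [← h1, ← h2, ← h3]; ring
  have hX : (0 : ℤ) < (p : ℤ) ^ a := by have := hp.pos; positivity
  have hY : (0 : ℤ) < (q : ℤ) ^ b := by have := hq.pos; positivity
  by_cases hp3 : 3 ≤ p
  · exfalso
    have hp3' : (3 : ℤ) ≤ p := by exact_mod_cast hp3
    have hq4' : (4 : ℤ) ≤ q := by exact_mod_cast (by omega : 4 ≤ q)
    generalize (p : ℤ) ^ a = X at *
    generalize (q : ℤ) ^ b = Y at *
    have hXY : 0 < X * Y := mul_pos hX hY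
    have e1 : 0 ≤ ((p : ℤ) - 2) * ((q : ℤ) - 2) - 2 := by nlinarith
    have e2 : 0 ≤ (X * Y) * (((p : ℤ) - 2) * ((q : ℤ) - 2) - 2) := mul_nonneg hXY.le e1
    have e3 : 0 < ((p : ℤ) - 1) * ((q : ℤ) - 1) := by
      apply mul_pos <;> linarith
    have e4 : 0 < (X + Y + 1) * (((p : ℤ) - 1) * ((q : ℤ) - 1)) := mul_pos (by linarith) e3
    have e5 : 0 < (p : ℤ) * X := by positivity
    have e6 : 0 < (q : ℤ) * Y := by positivity
    have e7 : 1 ≤ (p : ℤ) * X := e5
    have e8 : 1 ≤ (q : ℤ) * Y := e6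
    nlinarith
  · have hp2 : p = 2 := by have := hp.two_le; omega
    subst hp2
    have hq3 : 3 ≤ q := by omega
    -- the relation `M (Y - q) = 3 (1 + Y) (q - 1)` with `M = 2 X - 1`
    have rel : (2 * (2 : ℤ) ^ a - 1) * ((q : ℤ) ^ b - q) = 3 * (1 + (q : ℤ) ^ b) * ((q : ℤ) - 1) := by
      push_cast at key
      linarith
    obtain ⟨b', rfl⟩ : ∃ b', b = b' + 1 := ⟨b - 1, by omega⟩
    have hdvd : (q : ℤ) ∣ 3 := by
      have e : (3 : ℤ) = q * (3 * (1 + (q : ℤ) ^ (b' + 1)) + (-3) * (q : ℤ) ^ b' - (2 * (2 : ℤ) ^ a - 1) * ((q : ℤ) ^ b' - 1)) := by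
        have r := rel
        rw [pow_succ] at r ⊢
        linear_combination r
      exact ⟨_, e⟩
    have hq3' : q = 3 := by
      have : q ∣ 3 := by exact_mod_cast hdvd
      exact (Nat.prime_dvd_prime_iff_eq hq Nat.prime_three).1 this
    subst hq3'
    have rel2 : (2 * (2 : ℤ) ^ a - 1) * ((3 : ℤ) ^ b' - 1) = 6 * (3 : ℤ) ^ b' + 2 := by
      have r := rel
      push_cast at r
      rw [pow_succ] at r
      linarith
    have hb' : b' = 2 ∧ (2 : ℤ) ^ a = 4 := by
      rcases Nat.lt_or_ge b' 3 with hlt | hge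
      · have : b' = 1 ∨ b' = 2 := by omega
        rcases this with rfl | rfl
        · norm_num at rel2
          omega
        · norm_num at rel2
          exact ⟨rfl, by linarith⟩
      · exfalso
        have h27 : (27 : ℤ) ≤ (3 : ℤ) ^ b' := by
          calc (27 : ℤ) = 3 ^ 3 := by norm_num
            _ ≤ 3 ^ b' := pow_le_pow_right₀ (by norm_num) hge
        have e : (2 * (2 : ℤ) ^ a - 7) * ((3 : ℤ) ^ b' - 1) = 8 := by linarith
        rcases le_or_gt (2 * (2 : ℤ) ^ a - 7) 0 with h0 | h0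
        · nlinarith
        · have : 1 ≤ 2 * (2 : ℤ) ^ a - 7 := h0
          nlinarith
    obtain ⟨hb2, h4⟩ := hb'
    have h4' : 2 ^ a = 2 ^ 2 := by
      have : (2 : ℤ) ^ a = 2 ^ 2 := by rw [h4]; norm_num
      exact_mod_cast this
    have ha2 : a = 2 := Nat.pow_right_injective (le_refl 2) h4'
    exact ⟨rfl, ha2, rfl, by omega⟩

/-- The local factor `σ(p^k) / (1 + p^k)`. -/
def F (p k : ℕ) : ℚ := (∑ i ∈ Finset.range (k + 1), (p : ℚ) ^ i) / (1 + (p : ℚ) ^ k)

theorem F_pos {p k : ℕ} (hp : 2 ≤ p) : 0 < F p k := by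
  unfold F
  have : (0 : ℚ) < p := by exact_mod_cast (by omega : 0 < p)
  have h1 : 0 < ∑ i ∈ Finset.range (k + 1), (p : ℚ) ^ i :=
    Finset.sum_pos (fun i _ => by positivity) ⟨0, by simp⟩
  positivity

theorem F_eq {p k : ℕ} (hp : 2 ≤ p) :
    F p k = ((p : ℚ) * (p : ℚ) ^ k - 1) / (((p : ℚ) - 1) * (1 + (p : ℚ) ^ k)) := by
  unfold F
  have h2 : (2 : ℚ) ≤ p := by exact_mod_cast hp
  have h1 : (p : ℚ) - 1 ≠ 0 := by linarith
  have h3 : (0 : ℚ) < 1 + (p : ℚ) ^ k := by positivity
  rw [div_eq_div_iff h3.ne' (mul_ne_zero h1 h3.ne')]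
  have := geom_sum_mul (p : ℚ) (k + 1)
  rw [pow_succ] at this
  linear_combination (1 + (p : ℚ) ^ k) * this

theorem F_lt {p k P : ℕ} (hP : 2 ≤ P) (hp : P ≤ p) : F p k ≤ (P : ℚ) / ((P : ℚ) - 1) := by
  rw [F_eq (by omega)]
  have h2 : (2 : ℚ) ≤ P := by exact_mod_cast hP
  have h3 : (P : ℚ) ≤ p := by exact_mod_cast hp
  have hp0 : (0 : ℚ) < p := by linarith
  have hX : (0 : ℚ) < (p : ℚ) ^ k := by positivity
  rw [div_le_div_iff₀ (by apply mul_pos <;> linarith) (by linarith)]
  generalize (p : ℚ) ^ k = X at *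
  have e1 : 0 ≤ X * ((p : ℚ) - P) := mul_nonneg hX.le (by linarith)
  nlinarith

theorem F_mono {p m k : ℕ} (hp : 2 ≤ p) (hmk : m ≤ k) : F p m ≤ F p k := by
  rw [F_eq hp, F_eq hp]
  have h2 : (2 : ℚ) ≤ p := by exact_mod_cast hp
  have hXY : (p : ℚ) ^ m ≤ (p : ℚ) ^ k := pow_le_pow_right₀ (by linarith) hmk
  have hX : (0 : ℚ) < (p : ℚ) ^ m := by positivity
  have hY : (0 : ℚ) < (p : ℚ) ^ k := by positivity
  have h1 : (0 : ℚ) < (p : ℚ) - 1 := by linarith
  rw [div_le_div_iff₀ (by positivity) (by positivity)]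
  generalize (p : ℚ) ^ m = X at *
  generalize (p : ℚ) ^ k = Y at *
  have e1 : 0 ≤ (Y - X) * (((p : ℚ) - 1) * ((p : ℚ) + 1)) :=
    mul_nonneg (by linarith) (by apply mul_nonneg <;> linarith)
  nlinarith

theorem low {a b c α β γ : ℚ} (ha0 : 0 < a) (hb0 : 0 < b) (hc0 : 0 < c) (ha : a ≤ α) (hb : b ≤ β)
    (hc : c ≤ γ) (h : α * β * γ < 2) : a * b * c ≠ 2 := by
  have hα : 0 ≤ α := by linarith
  have hβ : 0 ≤ β := by linarith
  have : a * b * c ≤ α * β * γ := by gcongr
  intro h2
  linarith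

theorem high {a b c α β γ : ℚ} (ha0 : 0 < α) (hb0 : 0 < β) (hc0 : 0 < γ) (ha : α ≤ a) (hb : β ≤ b)
    (hc : γ ≤ c) (h : 2 < α * β * γ) : a * b * c ≠ 2 := by
  have hα : 0 ≤ a := by linarith
  have hβ : 0 ≤ b := by linarith
  have : α * β * γ ≤ a * b * c := by gcongr
  intro h2
  linarith

theorem three_case {p q r a b c : ℕ} (hp : p.Prime) (hq : q.Prime) (hr : r.Prime) (h3 : 3 ≤ p)
    (hpq : p < q) (hqr : q < r) (ha : 2 ≤ a) (hb : 2 ≤ b) (hc : 2 ≤ c) :
    F p a * F q b * F r c ≠ 2 := by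
  have pa : 0 < F p a := F_pos hp.two_le
  have pb : 0 < F q b := F_pos hq.two_le
  have pc : 0 < F r c := F_pos hr.two_le
  by_cases hp3 : p = 3
  swap
  · have h5 : 5 ≤ p := by
      by_contra hcon
      have : p = 4 := by omega
      subst this; revert hp; decide
    have h7 : 6 ≤ q := by omega
    have h11 : 7 ≤ r := by omega
    exact low pa pb pc (F_lt (by norm_num) h5) (F_lt (by norm_num) h7) (F_lt (by norm_num) h11)
      (by norm_num)
  subst hp3
  by_cases hq5 : q = 5
  swap
  · have h7 : 7 ≤ q := by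
      by_contra hcon
      have : q = 4 ∨ q = 6 := by omega
      rcases this with rfl | rfl <;> (revert hq; decide)
    have h11 : 11 ≤ r := by
      by_contra hcon
      have : r = 8 ∨ r = 9 ∨ r = 10 := by omega
      rcases this with rfl | rfl | rfl <;> (revert hr; decide)
    exact low pa pb pc (F_lt (P := 3) (by norm_num) (le_refl _)) (F_lt (by norm_num) h7)
      (F_lt (by norm_num) h11) (by norm_num)
  subst hq5
  have u3 : F 3 a ≤ 3 / 2 := by
    have := F_lt (p := 3) (k := a) (P := 3) (by norm_num) (le_refl _)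
    norm_num at this ⊢; exact this
  have u5 : F 5 b ≤ 5 / 4 := by
    have := F_lt (p := 5) (k := b) (P := 5) (by norm_num) (le_refl _)
    norm_num at this ⊢; exact this
  have v3 : F 3 a = 13 / 10 ∨ F 3 a = 10 / 7 ∨ F 3 a = 121 / 82 ∨ F 3 a = 91 / 61 ∨ 1093 / 730 ≤ F 3 a := by
    rcases Nat.lt_or_ge a 6 with hlt | hge
    · have : a = 2 ∨ a = 3 ∨ a = 4 ∨ a = 5 := by omega
      rcases this with rfl | rfl | rfl | rfl
      · left; norm_num [F, Finset.sum_range_succ]
      · right; left; norm_num [F, Finset.sum_range_succ]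
      · right; right; left; norm_num [F, Finset.sum_range_succ]
      · right; right; right; left; norm_num [F, Finset.sum_range_succ]
    · right; right; right; right
      have := F_mono (p := 3) (by norm_num) hge
      have e : F 3 6 = 1093 / 730 := by norm_num [F, Finset.sum_range_succ]
      rwa [e] at this
  have v5 : F 5 b = 31 / 26 ∨ F 5 b = 26 / 21 ∨ 781 / 626 ≤ F 5 b := by
    rcases Nat.lt_or_ge b 4 with hlt | hge
    · have : b = 2 ∨ b = 3 := by omega
      rcases this with rfl | rfl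
      · left; norm_num [F, Finset.sum_range_succ]
      · right; left; norm_num [F, Finset.sum_range_succ]
    · right; right
      have := F_mono (p := 5) (by norm_num) hge
      have e : F 5 4 = 781 / 626 := by norm_num [F, Finset.sum_range_succ]
      rwa [e] at this
  have hr' : r = 7 ∨ r = 11 ∨ r = 13 ∨ 17 ≤ r := by
    by_contra hcon
    have : r = 6 ∨ r = 8 ∨ r = 9 ∨ r = 10 ∨ r = 12 ∨ r = 14 ∨ r = 15 ∨ r = 16 := by omega
    rcases this with rfl | rfl | rfl | rfl | rfl | rfl | rfl | rfl <;> (revert hr; decide)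
  rcases hr' with rfl | rfl | rfl | h17
  · have u : F 7 c ≤ 7 / 6 := by
      have := F_lt (p := 7) (k := c) (P := 7) (by norm_num) (le_refl _)
      norm_num at this ⊢; exact this
    have l : 57 / 50 ≤ F 7 c := by
      have := F_mono (p := 7) (by norm_num) hc
      have e : F 7 2 = 57 / 50 := by norm_num [F, Finset.sum_range_succ]
      rwa [e] at this
    rcases v3 with h | h | h | h | h
    · exact low pa pb pc h.le u5 u (by norm_num)
    · rcases v5 with g | g | g
      · exact low pa pb pc h.le g.le u (by norm_num)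
      · exact high (by norm_num) (by norm_num) (by norm_num) h.ge g.ge l (by norm_num)
      · exact high (by norm_num) (by norm_num) (by norm_num) h.ge g l (by norm_num)
    · have g : 31 / 26 ≤ F 5 b := by rcases v5 with g | g | g <;> linarith
      exact high (by norm_num) (by norm_num) (by norm_num) h.ge g l (by norm_num)
    · have g : 31 / 26 ≤ F 5 b := by rcases v5 with g | g | g <;> linarith
      exact high (by norm_num) (by norm_num) (by norm_num) h.ge g l (by norm_num)
    · have g : 31 / 26 ≤ F 5 b := by rcases v5 with g | g | g <;> linarith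
      exact high (by norm_num) (by norm_num) (by norm_num) h g l (by norm_num)
  · have u : F 11 c ≤ 11 / 10 := by
      have := F_lt (p := 11) (k := c) (P := 11) (by norm_num) (le_refl _)
      norm_num at this ⊢; exact this
    have v : F 11 c = 133 / 122 ∨ 122 / 111 ≤ F 11 c := by
      rcases Nat.lt_or_ge c 3 with hlt | hge
      · have : c = 2 := by omega
        subst this
        left; norm_num [F, Finset.sum_range_succ]
      · right
        have := F_mono (p := 11) (by norm_num) hge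
        have e : F 11 3 = 122 / 111 := by norm_num [F, Finset.sum_range_succ]
        rwa [e] at this
    have l : 133 / 122 ≤ F 11 c := by rcases v with g | g <;> linarith
    rcases v3 with h | h | h | h | h
    · exact low pa pb pc h.le u5 u (by norm_num)
    · exact low pa pb pc h.le u5 u (by norm_num)
    · rcases v5 with g | g | g
      · exact low pa pb pc h.le g.le u (by norm_num)
      · rcases v with w | w
        · exact low pa pb pc h.le g.le w.le (by norm_num)
        · exact high (by norm_num) (by norm_num) (by norm_num) h.ge g.ge w (by norm_num)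
      · exact high (by norm_num) (by norm_num) (by norm_num) h.ge g l (by norm_num)
    · rcases v5 with g | g | g
      · exact low pa pb pc u3 g.le u (by norm_num)
      · exact high (by norm_num) (by norm_num) (by norm_num) h.ge g.ge l (by norm_num)
      · exact high (by norm_num) (by norm_num) (by norm_num) h.ge g l (by norm_num)
    · rcases v5 with g | g | g
      · exact low pa pb pc u3 g.le u (by norm_num)
      · exact high (by norm_num) (by norm_num) (by norm_num) h g.ge l (by norm_num)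
      · exact high (by norm_num) (by norm_num) (by norm_num) h g l (by norm_num)
  · have u : F 13 c ≤ 13 / 12 := by
      have := F_lt (p := 13) (k := c) (P := 13) (by norm_num) (le_refl _)
      norm_num at this ⊢; exact this
    have v : F 13 c = 183 / 170 ∨ F 13 c = 170 / 157 ∨ 30941 / 28562 ≤ F 13 c := by
      rcases Nat.lt_or_ge c 4 with hlt | hge
      · have : c = 2 ∨ c = 3 := by omega
        rcases this with rfl | rfl
        · left; norm_num [F, Finset.sum_range_succ]
        · right; left; norm_num [F, Finset.sum_range_succ]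
      · right; right
        have := F_mono (p := 13) (by norm_num) hge
        have e : F 13 4 = 30941 / 28562 := by norm_num [F, Finset.sum_range_succ]
        rwa [e] at this
    have l : 183 / 170 ≤ F 13 c := by rcases v with g | g | g <;> linarith
    rcases v3 with h | h | h | h | h
    · exact low pa pb pc h.le u5 u (by norm_num)
    · exact low pa pb pc h.le u5 u (by norm_num)
    · exact low pa pb pc h.le u5 u (by norm_num)
    · rcases v5 with g | g | g
      · exact low pa pb pc u3 g.le u (by norm_num)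
      · rcases v with w | w | w
        · exact low pa pb pc h.le g.le w.le (by norm_num)
        · exact low pa pb pc h.le g.le w.le (by norm_num)
        · exact high (by norm_num) (by norm_num) (by norm_num) h.ge g.ge w (by norm_num)
      · exact high (by norm_num) (by norm_num) (by norm_num) h.ge g l (by norm_num)
    · rcases v5 with g | g | g
      · exact low pa pb pc u3 g.le u (by norm_num)
      · rcases v with w | w | w
        · exact low pa pb pc u3 g.le w.le (by norm_num)
        · exact high (by norm_num) (by norm_num) (by norm_num) h g.ge w.ge (by norm_num)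
        · exact high (γ := 170 / 157) (by norm_num) (by norm_num) (by norm_num) h g.ge (by linarith) (by norm_num)
      · exact high (by norm_num) (by norm_num) (by norm_num) h g l (by norm_num)
  · exact low pa pb pc u3 u5 (F_lt (by norm_num) h17) (by norm_num)
/-- The identity for the primes with exponent at least `2`. -/
theorem prod_filter_eq {n : ℕ} (h : InA n) :
    ∏ p ∈ n.primeFactors.filter (fun p => p ^ 2 ∣ n),
      (∑ d ∈ (p ^ n.factorization p).divisors, d) =
    2 * ∏ p ∈ n.primeFactors.filter (fun p => p ^ 2 ∣ n), (1 + p ^ n.factorization p) := by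
  have hn0 : n ≠ 0 := by have := h.1; omega
  have h1 := prod_eq h
  rw [← Finset.prod_filter_mul_prod_filter_not n.primeFactors (fun p => p ^ 2 ∣ n),
    ← Finset.prod_filter_mul_prod_filter_not n.primeFactors (fun p => p ^ 2 ∣ n)
      (fun p => (1 + p ^ n.factorization p))] at h1
  have hrest : ∏ p ∈ n.primeFactors.filter (fun p => ¬ p ^ 2 ∣ n),
      (∑ d ∈ (p ^ n.factorization p).divisors, d) =
      ∏ p ∈ n.primeFactors.filter (fun p => ¬ p ^ 2 ∣ n), (1 + p ^ n.factorization p) := by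
    refine Finset.prod_congr rfl ?_
    intro p hp
    rw [Finset.mem_filter] at hp
    have hp' := Nat.prime_of_mem_primeFactors hp.1
    have hle : ¬ 2 ≤ n.factorization p := fun hh => hp.2 ((hp'.pow_dvd_iff_le_factorization hn0).2 hh)
    have hpos := hp'.factorization_pos_of_dvd hn0 (Nat.dvd_of_mem_primeFactors hp.1)
    have : n.factorization p = 1 := by omega
    rw [this, Nat.sum_divisors_prime_pow hp', Finset.sum_range_succ, Finset.sum_range_one]
    simp
  rw [hrest, ← mul_assoc] at h1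
  have hpos : 0 < ∏ p ∈ n.primeFactors.filter (fun p => ¬ p ^ 2 ∣ n), (1 + p ^ n.factorization p) :=
    Finset.prod_pos (fun p _ => by positivity)
  exact Nat.eq_of_mul_eq_mul_right hpos h1

theorem filter_mem {n : ℕ} (h : InA n) :
    ∀ p ∈ n.primeFactors.filter (fun p => p ^ 2 ∣ n), p.Prime ∧ 2 ≤ n.factorization p := by
  have hn0 : n ≠ 0 := by have := h.1; omega
  intro p hp
  rw [Finset.mem_filter] at hp
  have hp' := Nat.prime_of_mem_primeFactors hp.1
  exact ⟨hp', (hp'.pow_dvd_iff_le_factorization hn0).1 hp.2⟩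

theorem at_most_two {n : ℕ} (h : InA n)
    (hcard : (n.primeFactors.filter (fun p => p ^ 2 ∣ n)).card ≤ 2) : n % 216 = 108 := by
  have hn0 : n ≠ 0 := by have := h.1; omega
  have h2 := prod_filter_eq h
  have hmem := filter_mem h
  have fin : ∀ p q : ℕ, p.Prime → q.Prime → 2 ≤ n.factorization p → 2 ≤ n.factorization q → p < q →
      (∑ i ∈ Finset.range (n.factorization p + 1), p ^ i) *
        (∑ i ∈ Finset.range (n.factorization q + 1), q ^ i) =
      2 * ((1 + p ^ n.factorization p) * (1 + q ^ n.factorization q)) → n % 216 = 108 := by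
    intro p q hp hq ha hb hpq hh
    obtain ⟨rfl, e1, rfl, e2⟩ := two_case hp hq hpq ha hb hh
    have d4 : 2 ^ 2 ∣ n := (hp.pow_dvd_iff_le_factorization hn0).2 (by omega)
    have d8 : ¬ 2 ^ 3 ∣ n := fun hd => by
      have := (hp.pow_dvd_iff_le_factorization hn0).1 hd
      omega
    have d27 : 3 ^ 3 ∣ n := (hq.pow_dvd_iff_le_factorization hn0).2 (by omega)
    norm_num at d4 d8 d27
    omega
  have hc : (n.primeFactors.filter (fun p => p ^ 2 ∣ n)).card = 0 ∨
      (n.primeFactors.filter (fun p => p ^ 2 ∣ n)).card = 1 ∨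
      (n.primeFactors.filter (fun p => p ^ 2 ∣ n)).card = 2 := by omega
  rcases hc with hc | hc | hc
  · exfalso
    rw [Finset.card_eq_zero] at hc
    rw [hc] at h2
    simp at h2
  · exfalso
    obtain ⟨p, hS⟩ := Finset.card_eq_one.1 hc
    rw [hS] at h2 hmem
    have hp := hmem p (Finset.mem_singleton_self p)
    rw [Finset.prod_singleton, Finset.prod_singleton, Nat.sum_divisors_prime_pow hp.1] at h2
    exact one_case hp.1 h2
  · obtain ⟨p, q, hpq, hS⟩ := Finset.card_eq_two.1 hc
    rw [hS] at h2 hmem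
    have hp := hmem p (by simp)
    have hq := hmem q (by simp)
    rw [Finset.prod_pair hpq, Finset.prod_pair hpq, Nat.sum_divisors_prime_pow hp.1,
      Nat.sum_divisors_prime_pow hq.1] at h2
    rcases Nat.lt_or_gt_of_ne hpq with hlt | hlt
    · exact fin p q hp.1 hq.1 hp.2 hq.2 hlt h2
    · refine fin q p hq.1 hp.1 hq.2 hp.2 hlt ?_
      rw [mul_comm, h2, mul_comm (1 + p ^ n.factorization p)]


theorem odd_three {n : ℕ} (h : InA n) (ho : Odd n) :
    4 ≤ (n.primeFactors.filter (fun p => p ^ 2 ∣ n)).card := by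
  by_contra hcon
  have hc3 : (n.primeFactors.filter (fun p => p ^ 2 ∣ n)).card = 3 := by
    by_contra hne
    have := at_most_two h (by omega)
    have := Nat.odd_iff.1 ho
    omega
  have h2 := prod_filter_eq h
  have hmem := filter_mem h
  have hodd : ∀ p ∈ n.primeFactors.filter (fun p => p ^ 2 ∣ n), 3 ≤ p := by
    intro p hp
    have hp' := (hmem p hp).1
    have h2' : p ≠ 2 := by
      rintro rfl
      rw [Finset.mem_filter] at hp
      have := Nat.dvd_of_mem_primeFactors hp.1
      have := Nat.odd_iff.1 ho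
      omega
    have := hp'.two_le
    omega
  have key : ∀ p q r : ℕ, p.Prime → q.Prime → r.Prime → 3 ≤ p → p < q → q < r →
      2 ≤ n.factorization p → 2 ≤ n.factorization q → 2 ≤ n.factorization r →
      (∑ i ∈ Finset.range (n.factorization p + 1), p ^ i) *
        (∑ i ∈ Finset.range (n.factorization q + 1), q ^ i) *
        (∑ i ∈ Finset.range (n.factorization r + 1), r ^ i) =
      2 * ((1 + p ^ n.factorization p) * (1 + q ^ n.factorization q) *
        (1 + r ^ n.factorization r)) → False := by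
    intro p q r hp hq hr h3 hpq hqr ha hb hc he
    refine three_case hp hq hr h3 hpq hqr ha hb hc ?_
    have he' : ((∑ i ∈ Finset.range (n.factorization p + 1), (p : ℚ) ^ i) *
        (∑ i ∈ Finset.range (n.factorization q + 1), (q : ℚ) ^ i) *
        (∑ i ∈ Finset.range (n.factorization r + 1), (r : ℚ) ^ i)) =
      2 * ((1 + (p : ℚ) ^ n.factorization p) * (1 + (q : ℚ) ^ n.factorization q) *
        (1 + (r : ℚ) ^ n.factorization r)) := by exact_mod_cast he
    unfold F
    have p1 : (0 : ℚ) < 1 + (p : ℚ) ^ n.factorization p := by positivity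
    have p2 : (0 : ℚ) < 1 + (q : ℚ) ^ n.factorization q := by positivity
    have p3 : (0 : ℚ) < 1 + (r : ℚ) ^ n.factorization r := by positivity
    rw [div_mul_div_comm, div_mul_div_comm, he', div_eq_iff (by positivity)]
  obtain ⟨p, q, r, hpq, hpr, hqr, hS⟩ := Finset.card_eq_three.1 hc3
  rw [hS] at h2 hmem hodd
  have hp := hmem p (by simp)
  have hq := hmem q (by simp)
  have hr := hmem r (by simp)
  have op := hodd p (by simp)
  have oq := hodd q (by simp)
  have or' := hodd r (by simp)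
  have npq : p ∉ ({q, r} : Finset ℕ) := by simp [hpq, hpr]
  rw [Finset.prod_insert npq, Finset.prod_insert npq, Finset.prod_pair hqr, Finset.prod_pair hqr,
    Nat.sum_divisors_prime_pow hp.1, Nat.sum_divisors_prime_pow hq.1,
    Nat.sum_divisors_prime_pow hr.1] at h2
  generalize n.factorization = e at *
  rcases Nat.lt_or_gt_of_ne hpq with a1 | a1 <;> rcases Nat.lt_or_gt_of_ne hpr with a2 | a2 <;>
    rcases Nat.lt_or_gt_of_ne hqr with a3 | a3
  · exact key p q r hp.1 hq.1 hr.1 op a1 a3 hp.2 hq.2 hr.2 (by linarith)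
  · exact key p r q hp.1 hr.1 hq.1 op a2 a3 hp.2 hr.2 hq.2 (by linarith)
  · omega
  · exact key r p q hr.1 hp.1 hq.1 or' a2 a1 hr.2 hp.2 hq.2 (by linarith)
  · exact key q p r hq.1 hp.1 hr.1 oq a1 a2 hq.2 hp.2 hr.2 (by linarith)
  · omega
  · exact key q r p hq.1 hr.1 hp.1 oq a3 a2 hq.2 hr.2 hp.2 (by linarith)
  · exact key r q p hr.1 hq.1 hp.1 or' a3 a1 hr.2 hq.2 hp.2 (by linarith)

/-- Let `n ∈ 𝒜`. Then some odd prime divides `n` with exponent congruent to `3` modulo `4`; if
at most two primes `p` have `p ^ 2 ∣ n`, then `n ≡ 108 (mod 216)`; and if `n` is odd, then at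
least four primes `p` have `p ^ 2 ∣ n`. -/
theorem result (n : ℕ) (h : InA n) :
    (∃ p, p.Prime ∧ p ≠ 2 ∧ p ∣ n ∧ n.factorization p % 4 = 3) ∧
      ((n.primeFactors.filter (fun p => p ^ 2 ∣ n)).card ≤ 2 → n % 216 = 108) ∧
      (Odd n → 4 ≤ (n.primeFactors.filter (fun p => p ^ 2 ∣ n)).card) :=
  ⟨exists_three_mod_four h, at_most_two h, odd_three h⟩

end Pool.Agent.Results.MP_3f4d1a_nt.FewNonSimplePrimes
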